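import Pool.Agent.U783.SSE.Ash1
import Pool.Agent.U783.SSE.Ash2
import Pool.Agent.U783.SSE.Ash3
import Pool.Agent.U783.SSE.Ash4
import Pool.Agent.U783.SSE.Ash5

/-!
# MP_993212_an: Ashley's eight-by-eight is strong shift equivalent to `(2)`
-/

set_option autoImplicit false

namespace Pool.Agent.Results.MP_993212_an.AshleyEightByEight

open Matrix

/-- Elementary equivalence of square matrices over `ℕ`: `A = R S`, `B = S R` for rectangular
matrices `R`, `S` over `ℕ`. -/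
def Elem (X Y : Σ n : ℕ, Matrix (Fin n) (Fin n) ℕ) : Prop :=
  ∃ (R : Matrix (Fin X.1) (Fin Y.1) ℕ) (S : Matrix (Fin Y.1) (Fin X.1) ℕ),
    X.2 = R * S ∧ Y.2 = S * R

/-- Strong shift equivalence over `ℕ` (a finite chain of elementary equivalences). -/
def SSE {n m : ℕ} (A : Matrix (Fin n) (Fin n) ℕ) (B : Matrix (Fin m) (Fin m) ℕ) : Prop :=
  Relation.TransGen Elem ⟨n, A⟩ ⟨m, B⟩

/-- Ashley's eight-by-eight: the sum of the permutation matrices of `(1 2 3 4 5 6 7 8)` and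
`(1)(2)(3 7 4 8 6 5)` (vertices renumbered `0, …, 7`). -/
def ashley : Matrix (Fin 8) (Fin 8) ℕ := fun i j =>
  (if j = i + 1 then 1 else 0) + (if j = ![0, 1, 6, 7, 2, 4, 3, 5] i then 1 else 0)

/-- Ashley's eight-by-eight is strong shift equivalent over `ℤ⁺` to the `1 × 1` matrix `(2)`. -/
theorem result : SSE ashley (!![2] : Matrix (Fin 1) (Fin 1) ℕ) := by
  have h : ashley = !![1, 1, 0, 0, 0, 0, 0, 0; 0, 1, 1, 0, 0, 0, 0, 0; 0, 0, 0, 1, 0, 0, 1, 0; 0, 0, 0, 0, 1, 0, 0, 1; 0, 0, 1, 0, 0, 1, 0, 0; 0, 0, 0, 0, 1, 0, 1, 0; 0, 0, 0, 1, 0, 0, 0, 1; 1, 0, 0, 0, 0, 1, 0, 0] := by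
    decide +kernel
  have h1 := Pool.Agent.U783.SSE.Ash1.part
  have h2 := Pool.Agent.U783.SSE.Ash2.part
  have h3 := Pool.Agent.U783.SSE.Ash3.part
  have h4 := Pool.Agent.U783.SSE.Ash4.part
  have h5 := Pool.Agent.U783.SSE.Ash5.part
  unfold SSE
  rw [h]
  exact (((h1.trans h2).trans h3).trans h4).trans h5

end Pool.Agent.Results.MP_993212_an.AshleyEightByEight
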