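import Pool.Agent.U280.IE.Main

/-!
# MP_993212_an: irreducible `2 × 2` matrices over `ℕ` with integer eigenvalues `λ, μ ≠ 0` and
`500 |λ μ| ≤ (λ + μ)²`

Strong shift equivalence over `ℕ`, shift equivalence over `ℕ` and shift equivalence over `ℤ`
coincide.  Complete invariant: over `ℤ` such a matrix is similar to `[[μ, a], [0, λ]]`, and the
classes `a` modulo `λ - μ` are identified up to multiplication by divisors of powers of `λ` and `μ`.
(The starting result `ShiftEqSmallDet` is the case of irrational eigenvalues.)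

Proof. The shift of a class `a` is presented by `3 × 3` matrices on the cones with slopes in
`[α, β]` (integers) around the slope `a / (λ - μ)` of the Perron direction.  All presentations on one
cone are linked, presentations on nested cones are linked, and multiplying `a` by a divisor `q` of
`λ` or `μ` with `16 (q + |μ|) ≤ λ - μ` replaces `[-1, 1]` by `[-q, q]`; the divisors of `λ` larger than
`√λ` are reached through `λ ≡ μ` modulo `λ - μ`.
-/

set_option autoImplicit false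

namespace Pool.Agent.Results.MP_993212_an.IntegerEigenvalues

open Matrix

/-- Elementary equivalence of square matrices over `ℕ`: `A = R S`, `B = S R` for rectangular
matrices `R`, `S` over `ℕ`. -/
def Elem (X Y : Σ n : ℕ, Matrix (Fin n) (Fin n) ℕ) : Prop :=
  ∃ (R : Matrix (Fin X.1) (Fin Y.1) ℕ) (S : Matrix (Fin Y.1) (Fin X.1) ℕ),
    X.2 = R * S ∧ Y.2 = S * R

/-- Strong shift equivalence over `ℕ` (a finite chain of elementary equivalences). -/
def SSE {n m : ℕ} (A : Matrix (Fin n) (Fin n) ℕ) (B : Matrix (Fin m) (Fin m) ℕ) : Prop :=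
  Relation.TransGen Elem ⟨n, A⟩ ⟨m, B⟩

/-- Shift equivalence of square matrices over a semiring `k` (used for `k = ℕ` and `k = ℤ`). -/
def SE (k : Type) [Semiring k] {n m : ℕ} (A : Matrix (Fin n) (Fin n) k)
    (B : Matrix (Fin m) (Fin m) k) : Prop :=
  ∃ l, 1 ≤ l ∧ ∃ (R : Matrix (Fin n) (Fin m) k) (S : Matrix (Fin m) (Fin n) k),
    A ^ l = R * S ∧ B ^ l = S * R ∧ A * R = R * B ∧ S * A = B * S

/-- The same matrix over `ℤ`. -/
def toZ {n : ℕ} (A : Matrix (Fin n) (Fin n) ℕ) : Matrix (Fin n) (Fin n) ℤ :=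
  A.map (Nat.cast : ℕ → ℤ)

/-- Similarity over `ℤ` of `2 × 2` matrices. -/
def Similar (X Y : Matrix (Fin 2) (Fin 2) ℤ) : Prop :=
  ∃ U : Matrix (Fin 2) (Fin 2) ℤ, IsUnit U.det ∧ U * X = Y * U

theorem result (A B : Matrix (Fin 2) (Fin 2) ℕ) (hA : A 0 1 ≠ 0 ∧ A 1 0 ≠ 0)
    (hB : B 0 1 ≠ 0 ∧ B 1 0 ≠ 0) (lam mu : ℤ) (hmu : mu ≠ 0) (hle : |mu| ≤ lam)
    (htr : (toZ A).trace = lam + mu) (hdet : (toZ A).det = lam * mu)
    (hquad : 500 * |lam * mu| ≤ (lam + mu) ^ 2) :
    (SSE A B ↔ SE ℕ A B) ∧ (SE ℕ A B ↔ SE ℤ (toZ A) (toZ B)) ∧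
    (∃ a : ℤ, Similar (toZ A) !![mu, a; 0, lam]) ∧
    ∀ a b : ℤ, Similar (toZ A) !![mu, a; 0, lam] → Similar (toZ B) !![mu, b; 0, lam] →
      (SSE A B ↔ ∃ (l : ℕ) (r s : ℤ), r ∣ mu ^ l ∧ s ∣ lam ^ l ∧ (lam - mu) ∣ s * a - r * b) := by
  obtain ⟨x, hx⟩ : ∃ x, x = -mu := ⟨_, rfl⟩
  obtain rfl : mu = -x := by rw [hx]; ring
  have hx0 : x ≠ 0 := fun h => hmu (by rw [h, neg_zero])
  have hlam : 0 < lam := lt_of_lt_of_le (abs_pos.mpr hmu) hle
  have hNpos : x + lam ≠ 0 := by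
    intro h
    have h1 : lam + -x = 2 * lam := by linarith
    rw [abs_neg] at hle
    have h2 : lam * -x = lam * lam := by
      have : -x = lam := by linarith
      rw [this]
    rw [h1, h2, abs_of_pos (mul_pos hlam hlam)] at hquad
    nlinarith [mul_pos hlam hlam]
  have tri : ∀ c : ℤ, (!![-x, c; 0, lam] : Matrix (Fin 2) (Fin 2) ℤ) =
      Pool.Agent.U280.IE.PP x lam c := fun c => rfl
  have nnA : Pool.Agent.TH441.SSE2.NN (toZ A) := fun i j => by simp [toZ]
  have nnB : Pool.Agent.TH441.SSE2.NN (toZ B) := fun i j => by simp [toZ]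
  have a01 : 1 ≤ toZ A 0 1 := by
    have := hA.1; simp only [toZ, Matrix.map_apply]; omega
  have a10 : 1 ≤ toZ A 1 0 := by
    have := hA.2; simp only [toZ, Matrix.map_apply]; omega
  have b01 : 1 ≤ toZ B 0 1 := by
    have := hB.1; simp only [toZ, Matrix.map_apply]; omega
  have b10 : 1 ≤ toZ B 1 0 := by
    have := hB.2; simp only [toZ, Matrix.map_apply]; omega
  have s1 : SSE A B → SE ℕ A B := fun h =>
    Pool.Agent.Y321.SE2.se_of_transGen (fun _ _ hXY => hXY) h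
  have s2 : SE ℕ A B → SE ℤ (toZ A) (toZ B) := Pool.Agent.Y321.SE2.seZ_of_seN
  have hexA : ∃ a : ℤ, Similar (toZ A) !![-x, a; 0, lam] := by
    have h1 := htr
    have h2 := hdet
    rw [Matrix.trace_fin_two] at h1
    rw [Matrix.det_fin_two] at h2
    obtain ⟨a, ha⟩ := Pool.Agent.U280.IE.exists_tri (A := toZ A) (x := x) (y := lam)
      (by intro h; rw [h] at a01; omega) (by linarith) (by linarith)
    exact ⟨a, ha⟩
  have detne : (toZ A).det ≠ 0 := by
    rw [hdet]; exact mul_ne_zero hlam.ne' hmu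
  have s3 : ∀ a b : ℤ, Similar (toZ A) !![-x, a; 0, lam] → Similar (toZ B) !![-x, b; 0, lam] →
      SE ℤ (toZ A) (toZ B) → ∃ (l : ℕ) (r s : ℤ), r ∣ (-x) ^ l ∧ s ∣ lam ^ l ∧
        (lam - -x) ∣ s * a - r * b := by
    rintro a b ha hb ⟨l, -, R, S, e1, e2, e3, e4⟩
    obtain ⟨r, s, h1, h2, h3⟩ := Pool.Agent.U280.IE.arith (x := x) (y := lam) (a := a) (b := b)
      hNpos ha hb e3 e4 e1
    refine ⟨l, r, s, h1, h2, ?_⟩
    have e : lam - -x = x + lam := by ring
    rw [e]; exact h3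
  have s4 : ∀ a b : ℤ, Similar (toZ A) !![-x, a; 0, lam] → Similar (toZ B) !![-x, b; 0, lam] →
      (∃ (l : ℕ) (r s : ℤ), r ∣ (-x) ^ l ∧ s ∣ lam ^ l ∧ (lam - -x) ∣ s * a - r * b) →
      SSE A B := by
    rintro a b ha hb ⟨l, r, s, h1, h2, h3⟩
    have hr : r ∣ x ^ l := by
      have h5 : x ^ l = (-1) ^ l * (-x) ^ l := by rw [← mul_pow]; congr 1; ring
      rw [h5]; exact Dvd.dvd.mul_left h1 _
    have e : lam - -x = x + lam := by ring
    rw [e] at h3
    have q := Pool.Agent.U280.IE.Q_of_arith (x := x) (y := lam) nnA nnB a01 a10 b01 b10 hx0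
      (by rw [abs_neg] at hle; exact hle)
      (by
        have e5 : |x * lam| = |lam * -x| := by rw [mul_neg, abs_neg, mul_comm]
        have e6 : lam - x = lam + -x := by ring
        rw [e5, e6]; exact hquad) ha hb hr h2 h3
    exact Pool.Agent.Y321.SE2.transGen_of_Q (fun _ _ R S => ⟨R, S, rfl, rfl⟩) A B q
  have s5 : SE ℤ (toZ A) (toZ B) → SSE A B := by
    intro h
    obtain ⟨a, ha⟩ := hexA
    have hexB : ∃ b : ℤ, Similar (toZ B) !![-x, b; 0, lam] := by
      obtain ⟨l, -, R, S, e1, e2, e3, e4⟩ := h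
      obtain ⟨t1, t2⟩ := Pool.Agent.U280.IE.inv_se detne e3 e1
      rw [htr, Matrix.trace_fin_two] at t1
      rw [hdet, Matrix.det_fin_two] at t2
      obtain ⟨b, hb⟩ := Pool.Agent.U280.IE.exists_tri (A := toZ B) (x := x) (y := lam)
        (by intro h; rw [h] at b01; omega) (by linarith) (by linarith)
      exact ⟨b, hb⟩
    obtain ⟨b, hb⟩ := hexB
    exact s4 a b ha hb (s3 a b ha hb h)
  exact ⟨⟨s1, fun h => s5 (s2 h)⟩, ⟨s2, fun h => s1 (s5 h)⟩, hexA,
    fun a b ha hb => ⟨fun h => s3 a b ha hb (s2 (s1 h)), s4 a b ha hb⟩⟩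

end Pool.Agent.Results.MP_993212_an.IntegerEigenvalues
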