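import Pool.Agent.U571.NR.Real

/-!
# Strong shift equivalence of matrices of any size close to rank one

Shift equivalence, or similarity, over `ℤ` does not imply strong shift equivalence over `ℕ`, even for
primitive matrices. Here it does, with a chain of two elementary equivalences, for all integral
matrices of any size which are close to a positive matrix of rank one, compared with the size of the
matrices `U`, `U⁻¹` (or `S`) of the similarity (or elementary equivalence) over `ℤ`.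

Proof. Let `B = U A U⁻¹`. If `A` is a sum of matrices `t ℓᵀ` with integral vectors `t ≥ 0`, `U t ≥ 0`,
`ℓᵀ ≥ 0`, `ℓᵀ U⁻¹ ≥ 0`, then `A = T L`, `L T = (L U⁻¹) (U T)` and `(U T) (L U⁻¹) = B` with matrices
`T`, `L`, `U T`, `L U⁻¹` over `ℕ`. If `α ± e_i` and `β ± e_j` are in the two cones, then
`e_i e_jᵀ + 3 α βᵀ = (α + e_i) (β + e_j)ᵀ + α (β - e_j)ᵀ + (α - e_i) βᵀ`
is such a sum, and the same for `-e_i e_jᵀ`; so are all the matrices `X + c α βᵀ`, `c ≥ 3 ∑ |X i j|`.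
-/

set_option autoImplicit false

namespace Pool.Agent.Results.MP_993212_an.NearRankOne

open Matrix

/-- Elementary equivalence of square matrices over `ℕ`: `A = R S`, `B = S R` for rectangular
matrices `R`, `S` over `ℕ`. -/
def Elem (X Y : Σ n : ℕ, Matrix (Fin n) (Fin n) ℕ) : Prop :=
  ∃ (R : Matrix (Fin X.1) (Fin Y.1) ℕ) (S : Matrix (Fin Y.1) (Fin X.1) ℕ),
    X.2 = R * S ∧ Y.2 = S * R

/-- The integral matrices `A` and `B` have entries `≥ 0` and, as matrices over `ℕ`, they are joined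
by a chain of two elementary equivalences over `ℕ` (`C` is the matrix in between). -/
def TwoSteps {n m : ℕ} (A : Matrix (Fin n) (Fin n) ℤ) (B : Matrix (Fin m) (Fin m) ℤ) : Prop :=
  ∃ (A' : Matrix (Fin n) (Fin n) ℕ) (B' : Matrix (Fin m) (Fin m) ℕ)
    (C : Σ r : ℕ, Matrix (Fin r) (Fin r) ℕ),
    A'.map (Nat.cast : ℕ → ℤ) = A ∧ B'.map (Nat.cast : ℕ → ℤ) = B ∧ Elem ⟨n, A'⟩ C ∧ Elem C ⟨m, B'⟩

/-- Matrices of any size close to rank one.
(1) Let `U ∈ GL n ℤ`, `V = U⁻¹`, let `k`, `l ≥ 1` bound the absolute values of the entries of `U`, `V`,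
and let `u`, `U u`, `v`, `v V` be positive integral vectors. For every integral matrix `X` and every
`N ≥ 3 k l ∑ |X i j|` the matrices `A = N u vᵀ + X` and `U A U⁻¹` are joined by two elementary
equivalences over `ℕ`.
(2) For all `d`, `k`, `H` there is `c > 0` such that for all `n ≤ d`, `U ∈ GL n ℤ`, `V = U⁻¹` with
entries bounded by `k`, all real vectors `x`, `y` with entries in `[1, H]` and with `U x ≥ 1`,
`y V ≥ 1`, all `λ ≥ 1 / c` and all integral `A` with `|A i j - λ x i y j| ≤ c λ` the matrices `A` and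
`U A U⁻¹` are joined by two elementary equivalences over `ℕ`.
(3) The same for `R S` and `S R` with an integral `m × n` matrix `S` with entries bounded by `k`,
`n, m ≤ d`, `x`, `w` with entries in `[1, H]`, `S x ≥ 1`, `w S ≥ 1`, and all integral `R` with
`|R i j - λ x i w j| ≤ c λ`. -/
theorem result :
    (∀ (n : ℕ) (U V X : Matrix (Fin n) (Fin n) ℤ) (u v : Fin n → ℤ) (k l N : ℤ), U * V = 1 →
      1 ≤ k → 1 ≤ l → (∀ i j, |U i j| ≤ k) → (∀ i j, |V i j| ≤ l) → (∀ i, 1 ≤ u i) →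
      (∀ i, 1 ≤ v i) → (∀ i, 1 ≤ (U *ᵥ u) i) → (∀ i, 1 ≤ (v ᵥ* V) i) →
      3 * k * l * ∑ i, ∑ j, |X i j| ≤ N →
      TwoSteps (N • vecMulVec u v + X) (U * (N • vecMulVec u v + X) * V)) ∧
    (∀ (d k : ℕ) (H : ℝ), 1 ≤ H → ∃ c : ℝ, 0 < c ∧ ∀ n : ℕ, n ≤ d →
      ∀ U V : Matrix (Fin n) (Fin n) ℤ, U * V = 1 → (∀ i j, |U i j| ≤ k) → (∀ i j, |V i j| ≤ k) →
      ∀ x y : Fin n → ℝ, (∀ i, 1 ≤ x i ∧ x i ≤ H) → (∀ i, 1 ≤ y i ∧ y i ≤ H) →
      (∀ j, 1 ≤ ∑ i, (U j i : ℝ) * x i) → (∀ j, 1 ≤ ∑ i, y i * (V i j : ℝ)) →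
      ∀ lam : ℝ, 1 / c ≤ lam → ∀ A : Matrix (Fin n) (Fin n) ℤ,
      (∀ i j, |(A i j : ℝ) - lam * x i * y j| ≤ c * lam) → TwoSteps A (U * A * V)) ∧
    (∀ (d k : ℕ) (H : ℝ), 1 ≤ H → ∃ c : ℝ, 0 < c ∧ ∀ n m : ℕ, n ≤ d → m ≤ d →
      ∀ S : Matrix (Fin m) (Fin n) ℤ, (∀ i j, |S i j| ≤ k) →
      ∀ (x : Fin n → ℝ) (w : Fin m → ℝ), (∀ i, 1 ≤ x i ∧ x i ≤ H) → (∀ i, 1 ≤ w i ∧ w i ≤ H) →
      (∀ j, 1 ≤ ∑ i, (S j i : ℝ) * x i) → (∀ j, 1 ≤ ∑ i, w i * (S i j : ℝ)) →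
      ∀ lam : ℝ, 1 / c ≤ lam → ∀ R : Matrix (Fin n) (Fin m) ℤ,
      (∀ i j, |(R i j : ℝ) - lam * x i * w j| ≤ c * lam) → TwoSteps (R * S) (S * R)) := by
  refine ⟨?_, ?_, ?_⟩
  · intro n U V X u v k l N hUV hk hl hU hV hu hv hUu hvV hN
    have hsum0 : 0 ≤ ∑ i, ∑ j, |X i j| :=
      Finset.sum_nonneg fun i _ => Finset.sum_nonneg fun j _ => abs_nonneg _
    have hsing : ∀ i i' : Fin n, |(Pi.single i (1 : ℤ) : Fin n → ℤ) i'| ≤ 1 := by
      intro i i'
      rw [Pi.single_apply]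
      split_ifs <;> simp
    have hku : ∀ i, k ≤ (k • u) i := fun i => by
      rw [Pi.smul_apply, smul_eq_mul]
      nlinarith [hu i]
    have hkU : ∀ i, k ≤ (U *ᵥ (k • u)) i := fun i => by
      rw [Matrix.mulVec_smul, Pi.smul_apply, smul_eq_mul]
      nlinarith [hUu i]
    have hlv : ∀ i, l ≤ (l • v) i := fun i => by
      rw [Pi.smul_apply, smul_eq_mul]
      nlinarith [hv i]
    have hlV : ∀ i, l ≤ ((l • v) ᵥ* V) i := fun i => by
      rw [Matrix.smul_vecMul, Pi.smul_apply, smul_eq_mul]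
      nlinarith [hvV i]
    have hUe : ∀ i j, |(U *ᵥ (Pi.single i (1 : ℤ))) j| ≤ k := fun i j => by
      rw [Matrix.mulVec_single_one, Matrix.col_apply]
      exact hU j i
    have hVe : ∀ i j, |((Pi.single i (1 : ℤ)) ᵥ* V) j| ≤ l := fun i j => by
      rw [Matrix.single_one_vecMul, Matrix.row_apply]
      exact hV i j
    have hα : k • u ∈ Pool.Agent.U571.NR.PR U :=
      ⟨fun i => by linarith [hku i], fun i => by linarith [hkU i]⟩
    have hβ : l • v ∈ Pool.Agent.U571.NR.PL V :=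
      ⟨fun i => by linarith [hlv i], fun i => by linarith [hlV i]⟩
    have hu' : u ∈ Pool.Agent.U571.NR.PR U :=
      ⟨fun i => by linarith [hu i], fun i => by linarith [hUu i]⟩
    have hv' : v ∈ Pool.Agent.U571.NR.PL V :=
      ⟨fun i => by linarith [hv i], fun i => by linarith [hvV i]⟩
    have hcore := Pool.Agent.U571.NR.core hα hβ
      (fun i => ⟨fun i' => by
          rw [Pi.add_apply]; linarith [hku i', (abs_le.1 (hsing i i')).1], fun j => by
          rw [Matrix.mulVec_add, Pi.add_apply]; linarith [hkU j, (abs_le.1 (hUe i j)).1]⟩)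
      (fun i => ⟨fun i' => by
          rw [Pi.sub_apply]; linarith [hku i', (abs_le.1 (hsing i i')).2], fun j => by
          rw [Matrix.mulVec_sub, Pi.sub_apply]; linarith [hkU j, (abs_le.1 (hUe i j)).2]⟩)
      (fun i => ⟨fun i' => by
          rw [Pi.add_apply]; linarith [hlv i', (abs_le.1 (hsing i i')).1], fun j => by
          rw [Matrix.add_vecMul, Pi.add_apply]; linarith [hlV j, (abs_le.1 (hVe i j)).1]⟩)
      (fun i => ⟨fun i' => by
          rw [Pi.sub_apply]; linarith [hlv i', (abs_le.1 (hsing i i')).2], fun j => by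
          rw [Matrix.sub_vecMul, Pi.sub_apply]; linarith [hlV j, (abs_le.1 (hVe i j)).2]⟩)
      X (le_refl (3 * ∑ i, ∑ j, |X i j|))
    have hmem : N • vecMulVec u v + X ∈ Pool.Agent.U571.NR.D (Pool.Agent.U571.NR.PR U)
        (Pool.Agent.U571.NR.PL V) := by
      have h : N • vecMulVec u v + X =
          (X + (3 * ∑ i, ∑ j, |X i j|) • vecMulVec (k • u) (l • v)) +
            (N - 3 * k * l * ∑ i, ∑ j, |X i j|) • vecMulVec u v := by
        ext i j
        simp only [Matrix.add_apply, Matrix.smul_apply, vecMulVec_apply, Pi.smul_apply,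
          smul_eq_mul]
        ring
      rw [h]
      exact add_mem hcore (Pool.Agent.U571.NR.smul_mem_D (Pool.Agent.U571.NR.mem_D hu' hv')
        (by linarith))
    obtain ⟨A', B', hA, hB, r, T₀, L₀, T₁, L₁, h1, h2, h3⟩ :=
      Pool.Agent.U571.NR.lift_sim U V hUV _ hmem
    exact ⟨A', B', ⟨r, L₀ * T₀⟩, hA, hB, ⟨T₀, L₀, h1, rfl⟩, ⟨L₁, T₁, h2, h3⟩⟩
  · intro d k H hH
    obtain ⟨c, hc, h⟩ := Pool.Agent.U571.NR.near d k H hH
    refine ⟨c, hc, ?_⟩
    intro n hn U V hUV hU hV x y hx hy hUx hyV lam hlam A hA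
    have hmem := h n n n n hn hn U V hU hV x y hx hy hUx hyV lam hlam A hA
    obtain ⟨A', B', hA', hB', r, T₀, L₀, T₁, L₁, h1, h2, h3⟩ :=
      Pool.Agent.U571.NR.lift_sim U V hUV _ hmem
    exact ⟨A', B', ⟨r, L₀ * T₀⟩, hA', hB', ⟨T₀, L₀, h1, rfl⟩, ⟨L₁, T₁, h2, h3⟩⟩
  · intro d k H hH
    obtain ⟨c, hc, h⟩ := Pool.Agent.U571.NR.near d k H hH
    refine ⟨c, hc, ?_⟩
    intro n m hn hm S hS x w hx hw hSx hwS lam hlam R hR
    have hmem := h n m m n hn hm S S hS hS x w hx hw hSx hwS lam hlam R hR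
    obtain ⟨A', B', hA', hB', r, T₀, L₀, T₁, L₁, h1, h2, h3⟩ :=
      Pool.Agent.U571.NR.lift_elem S R hmem
    exact ⟨A', B', ⟨r, L₀ * T₀⟩, hA', hB', ⟨T₀, L₀, h1, rfl⟩, ⟨L₁, T₁, h2, h3⟩⟩

end Pool.Agent.Results.MP_993212_an.NearRankOne
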