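import Pool.Agent.U783.PT.Final

/-!
# Path methods for strong shift equivalence over `ℕ`

Kim, Roush and Boyle showed that positive matrices over a dense subring of `ℝ` which are joined by a
path of positive real matrices similar to each other are strong shift equivalent over the nonnegative
part of the subring, as soon as they are over the subring. Here is an analogue over `ℤ`, for matrices
with large entries. For `2 × 2` matrices the path always exists, and chains of shift equivalences over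
`ℤ` through matrices with entries of any sign can be followed, with a bound which does not depend on
the length of the chain.

Proof. An integral matrix `A` near `t X`, `t` large, has decompositions `A = H N Θ` with fixed integral
matrices `H`, `Θ` (a *frame*), `H` with a right inverse, `Θ` with a left inverse and `Θ H ≥ 0`, and
`N` with large entries. Any two such `N` are joined by small moves, which are elementary equivalences
of `Θ H N`; so the class of `Θ H N` depends only on `A` and the frame. For a real `P` with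
`P X P⁻¹ > 0` all frames with `P H > 0`, `Θ P⁻¹ > 0` give the same class, hence so do all frames along
a path of matrices `P`; at the ends of the path the class is that of `A` and of `B`. The lattices
between `ℤⁿ` and `R ℤⁿ` take care of the lag of the shift equivalence. Compactness gives the uniform
statements, and the reduction theory of indefinite binary quadratic forms gives (3).
-/

set_option autoImplicit false

namespace Pool.Agent.Results.MP_993212_an.PathMethods

open Matrix

/-- Elementary equivalence of square matrices over `ℕ`: `A = R S`, `B = S R` for rectangular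
matrices `R`, `S` over `ℕ`. -/
def Elem (X Y : Σ n : ℕ, Matrix (Fin n) (Fin n) ℕ) : Prop :=
  ∃ (R : Matrix (Fin X.1) (Fin Y.1) ℕ) (S : Matrix (Fin Y.1) (Fin X.1) ℕ),
    X.2 = R * S ∧ Y.2 = S * R

/-- Strong shift equivalence over `ℕ`: a finite chain of elementary equivalences. -/
def SSE {n m : ℕ} (A : Matrix (Fin n) (Fin n) ℕ) (B : Matrix (Fin m) (Fin m) ℕ) : Prop :=
  Relation.TransGen Elem ⟨n, A⟩ ⟨m, B⟩

/-- The same matrix over `ℤ`. -/
def toZ {n : ℕ} (A : Matrix (Fin n) (Fin n) ℕ) : Matrix (Fin n) (Fin n) ℤ :=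
  A.map (fun a : ℕ => (a : ℤ))

/-- `A` and `B` are shift equivalent over `ℤ` (with some lag `l ≥ 1`) through `R`. -/
def SEby {n : ℕ} (R A B : Matrix (Fin n) (Fin n) ℤ) : Prop :=
  ∃ l : ℕ, 1 ≤ l ∧ ∃ S : Matrix (Fin n) (Fin n) ℤ,
    A ^ l = R * S ∧ B ^ l = S * R ∧ A * R = R * B ∧ S * A = B * S

/-- `A` and `B` are similar over `ℤ`: `A U = U B` for some `U ∈ GL (Fin 2) ℤ`. -/
def Similar (A B : Matrix (Fin 2) (Fin 2) ℤ) : Prop :=
  ∃ U V : Matrix (Fin 2) (Fin 2) ℤ, U * V = 1 ∧ V * U = 1 ∧ A * U = U * B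

/-- One step of the chains in (2): the integral matrices `A`, `B` have entries of absolute value at
most `k t` and are shift equivalent over `ℤ` through some `R` with `det R ≠ 0` and entries of absolute
value at most `k`. -/
def Step (k t : ℝ) (A B : Matrix (Fin 2) (Fin 2) ℤ) : Prop :=
  (∀ i j, |(A i j : ℝ)| ≤ k * t) ∧ (∀ i j, |(B i j : ℝ)| ≤ k * t) ∧
    ∃ R : Matrix (Fin 2) (Fin 2) ℤ, R.det ≠ 0 ∧ (∀ i j, |(R i j : ℝ)| ≤ k) ∧ SEby R A B

/-- (1) Let `X` be a real `n × n` matrix, `R` an integral one with `det R ≠ 0`, and `C` a path of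
invertible real matrices from `1` to `R` with `C(s)⁻¹ X C(s) > 0` for all `s`. There are `ε > 0` and
`T` such that for `t ≥ T` all `n × n` matrices `A`, `B` over `ℕ` with `|A i j - t X i j| ≤ ε t`
which are shift equivalent over `ℤ` through `R` are strong shift equivalent over `ℕ`.
(2) For all `δ > 0`, `k` there is `T` such that for `t ≥ T` all `2 × 2` matrices `A`, `B` over `ℕ` with
entries `≥ δ t`, those of `A` being `≤ k t`, which are joined by a chain of any length of integral
matrices of any signs as in `Step`, are strong shift equivalent over `ℕ`.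
(3) For all `δ > 0`, `k` there is `T` such that for `t ≥ T` all `2 × 2` matrices `A`, `B` over `ℕ` with
entries `≥ δ t`, those of `A` being `≤ k t`, which are similar over `ℤ`, are strong shift equivalent
over `ℕ`, provided that all integral matrices with positive off-diagonal entries which are similar to
`A` over `ℤ` have off-diagonal entries `≤ k t`. -/
theorem result :
    (∀ (n : ℕ) (X : Matrix (Fin n) (Fin n) ℝ) (R : Matrix (Fin n) (Fin n) ℤ)
      (C : unitInterval → Matrix (Fin n) (Fin n) ℝ), R.det ≠ 0 → Continuous C →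
      (∀ s, (C s).det ≠ 0) → (∀ s i j, 0 < ((C s)⁻¹ * X * C s) i j) → C 0 = 1 →
      C 1 = R.map (fun z : ℤ => (z : ℝ)) →
      ∃ ε : ℝ, 0 < ε ∧ ∃ T : ℝ, ∀ t : ℝ, T ≤ t → ∀ A B : Matrix (Fin n) (Fin n) ℕ,
        (∀ i j, |(A i j : ℝ) - t * X i j| ≤ ε * t) → SEby R (toZ A) (toZ B) → SSE A B) ∧
    (∀ δ k : ℝ, 0 < δ → ∃ T : ℝ, ∀ t : ℝ, T ≤ t → ∀ A B : Matrix (Fin 2) (Fin 2) ℕ,
      (∀ i j, δ * t ≤ A i j ∧ (A i j : ℝ) ≤ k * t ∧ δ * t ≤ B i j) →
      Relation.ReflTransGen (Step k t) (toZ A) (toZ B) → SSE A B) ∧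
    (∀ δ k : ℝ, 0 < δ → ∃ T : ℝ, ∀ t : ℝ, T ≤ t → ∀ A B : Matrix (Fin 2) (Fin 2) ℕ,
      (∀ i j, δ * t ≤ A i j ∧ (A i j : ℝ) ≤ k * t ∧ δ * t ≤ B i j) →
      Similar (toZ A) (toZ B) →
      (∀ C : Matrix (Fin 2) (Fin 2) ℤ, Similar (toZ A) C → 0 < C 0 1 → 0 < C 1 0 →
        (C 0 1 : ℝ) ≤ k * t ∧ (C 1 0 : ℝ) ≤ k * t) → SSE A B) := by
  refine ⟨?_, ?_, ?_⟩
  · intro n X R C hR hC hCd hpos hC0 hC1
    rcases Nat.eq_zero_or_pos n with hn | hn
    · subst hn
      refine ⟨1, one_pos, 0, ?_⟩
      intro t _ A B _ _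
      have h : A = B := Subsingleton.elim _ _
      rw [h]
      exact Relation.TransGen.single ⟨B, 1, by rw [Matrix.mul_one], by rw [Matrix.one_mul]⟩
    have : Nonempty (Fin n) := ⟨⟨0, hn⟩⟩
    have hinv : ∀ s, (C s)⁻¹ * C s = 1 := fun s =>
      Matrix.nonsing_inv_mul _ (isUnit_iff_ne_zero.mpr (hCd s))
    have hD : Continuous (fun s => (C s)⁻¹) := by
      rw [continuous_iff_continuousAt]
      intro s
      exact ContinuousAt.comp (g := fun M : Matrix (Fin n) (Fin n) ℝ => M⁻¹)
        (Pool.Agent.U783.PT.contAt_inv _ (hCd s)) hC.continuousAt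
    obtain ⟨ε, hε, T, hT⟩ := Pool.Agent.U783.PT.se_path X R hR C (fun s => (C s)⁻¹) hC hD hinv
      hpos 0 1 hC0 hC1
    refine ⟨ε, hε, T, ?_⟩
    rintro t ht A B hA ⟨l, -, S, h1, -, h2, -⟩
    refine Pool.Agent.U783.PT.QI.sse (hT t ht (toZ A) (toZ B) ?_ h2 ⟨l, S, h1⟩).2.2
    intro i j
    have h := hA i j
    show |(((A i j : ℕ) : ℤ) : ℝ) - t * X i j| ≤ ε * t
    rw [Int.cast_natCast]
    exact h
  · intro δ k hδ
    obtain ⟨T, hT⟩ := Pool.Agent.U783.PT.chain δ k hδ
    refine ⟨max T 0, ?_⟩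
    intro t ht A B hAB hch
    have ht0 : 0 ≤ t := (le_max_right _ _).trans ht
    have hcast : ∀ (M : Matrix (Fin 2) (Fin 2) ℕ) i j, ((toZ M i j : ℤ) : ℝ) = (M i j : ℝ) :=
      fun M i j => Int.cast_natCast _
    refine Pool.Agent.U783.PT.QI.sse (hT t ((le_max_left _ _).trans ht) (toZ A) (toZ B) ?_ ?_ ?_ ?_)
    · intro i j
      rw [hcast, abs_of_nonneg (Nat.cast_nonneg _)]
      exact (hAB i j).2.1
    · intro i j
      rw [hcast]
      exact (hAB i j).1
    · intro i j
      rw [hcast]
      exact (hAB i j).2.2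
    · have hle : Step k t ≤ Pool.Agent.U783.PT.Step k t := by
        rintro M M' ⟨h1, h2, R, h3, h4, l, -, S, h5, -, h6, -⟩
        exact ⟨h1, h2, R, h3, h4, h6, l, S, h5⟩
      exact Relation.ReflTransGen.mono hle _ _ hch
  · intro δ k hδ
    obtain ⟨T, hT⟩ := Pool.Agent.U783.PT.class_thm δ k hδ
    refine ⟨max T 0, ?_⟩
    rintro t ht A B hAB ⟨U, V, hUV, -, hU⟩ hH
    have hcast : ∀ (M : Matrix (Fin 2) (Fin 2) ℕ) i j, ((toZ M i j : ℤ) : ℝ) = (M i j : ℝ) :=
      fun M i j => Int.cast_natCast _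
    refine Pool.Agent.U783.PT.QI.sse (hT t ((le_max_left _ _).trans ht) (toZ A) (toZ B) ?_ ?_
      ⟨U, V, hUV, hU⟩ ?_)
    · intro i j
      rw [hcast]
      exact ⟨(hAB i j).1, (hAB i j).2.1⟩
    · intro i j
      rw [hcast]
      exact (hAB i j).2.2
    · rintro C' ⟨U', V', h1, h2⟩ h3 h4
      exact hH C' ⟨U', V', h1, mul_eq_one_comm.mp h1, h2⟩ h3 h4

end Pool.Agent.Results.MP_993212_an.PathMethods
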